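import Mathlib
import Pool.Agent.TH211.TP.CuspModule

set_option autoImplicit false

namespace Pool.Agent.Results.MP_dca5ce_ag.CuspidalTestExponents

open Pool.Agent.TH211.TP

/-- For every field `k` and every `c ≥ 2` the ring `k + t^c k[[t]]` is a Noetherian local domain
of Krull dimension one, and its test exponents are exactly the integers `e ≥ c`.  In particular
`e = 2` is not a test exponent for `c ≥ 3`. -/
theorem result.{u} (k : Type u) [Field k] (c : ℕ) (hc : 2 ≤ c) :
    IsDomain (CuspRing k c) ∧ IsLocalRing (CuspRing k c) ∧ IsNoetherianRing (CuspRing k c) ∧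
      ringKrullDim (CuspRing k c) = 1 ∧
        ∀ e : ℕ, IsTestExponent.{u, u} (CuspRing k c) e ↔ c ≤ e := by
  refine ⟨inferInstance, inferInstance, CuspRing.noetherian (by omega),
    CuspRing.dim (by omega), fun e => ⟨fun h => ?_, fun h => ?_⟩⟩
  · by_contra hlt
    obtain ⟨N, rfl⟩ : ∃ N, c = N + 1 := ⟨c - 1, by omega⟩
    exact h (CM k N) finite_CM torsion_CM (not_free_CM (by omega)) (torsion_cusp (by omega))
  · intro M _ _ _ _ hM
    have := CuspRing.noetherian (k := k) (c := c) (by omega)
    exact torsion_one M (CuspRing.tc k c) (CuspRing.tc_mem (by omega)) c e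
      (CuspRing.length_le (by omega)) h hM

end Pool.Agent.Results.MP_dca5ce_ag.CuspidalTestExponents
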