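import Mathlib
import Pool.Agent.TH211.TP.Defs
import Pool.Agent.TH211.TP.Dim

set_option autoImplicit false

namespace Pool.Agent.Results.MP_dca5ce_ag.DimensionAtMostTwo

open Pool.Agent.TH211.TP

/-- Let `R` be a Noetherian local domain.  If `d` elements of the maximal ideal,
`d = 1` or `d = 2`, generate an ideal with quotient of finite length `n`, then every `e ≥ d + n - 1` is a test exponent for `R`.
If `R` has Krull dimension at most two, such elements exist, so all large `e` are test
exponents. -/
theorem result.{u, v} (R : Type u) [CommRing R] [IsDomain R] [IsNoetherianRing R]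
    [IsLocalRing R] :
    (∀ (d : ℕ) (q : Fin d → R) (n : ℕ), 1 ≤ d → d ≤ 2 → (∀ i, q i ∈ IsLocalRing.maximalIdeal R) →
      Module.length R (R ⧸ Ideal.span (Set.range q)) = n →
        ∀ e : ℕ, d + n ≤ e + 1 → IsTestExponent.{u, v} R e) ∧
    (ringKrullDim R ≤ 2 → ∃ e₀ : ℕ, ∀ e ≥ e₀, IsTestExponent.{u, v} R e) := by
  constructor
  · intro d q n hd1 hd hq hn e he M _ _ _ _ hM
    interval_cases d
    · have h1 : Set.range q = {q 0} := by
        ext z; simp [Fin.exists_fin_one, eq_comm]
      rw [h1] at hn
      exact torsion_one M (q 0) (hq 0) n e hn.le (by omega) hM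
    · have h1 : Set.range q = {q 0, q 1} := by
        ext z; simp [Fin.exists_fin_two, eq_comm]
      rw [h1] at hn
      exact torsion_two M (q 0) (q 1) (hq 0) (hq 1) n e hn.le (by omega) hM
  · intro h
    obtain ⟨x, hx, y, hy, n, hn⟩ := exists_params h
    exact ⟨n + 1, fun e he M _ _ _ _ hM => torsion_two M x y hx hy n e hn he hM⟩

end Pool.Agent.Results.MP_dca5ce_ag.DimensionAtMostTwo
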